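import Pool.Agent.W447.LT.Stm

/-!
The run simulates the register machine: `PHASE → SWEEP → PCM`.
-/

set_option autoImplicit false

open Polynomial

namespace Pool.Agent.W628.LT

open Pool.Agent.W447.LT

section alive

variable {N : ℕ} {S : Type} (δ : S → E N → Option (S × Up N))

theorem alive_succ (i : ℕ) {x y : S × C N} (h : st δ x = some y) :
    alive δ (i + 1) x ↔ alive δ i y := by
  simp only [alive, h]

theorem alive_none (i : ℕ) {x : S × C N} (h : st δ x = none) : ¬ alive δ (i + 1) x := by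
  simp only [alive, h]
  exact fun h => h

theorem alive_congr {x x' : S × C N} (h : st δ x = st δ x') (i : ℕ) :
    alive δ (i + 1) x ↔ alive δ (i + 1) x' := by
  simp only [alive, h]

theorem alive_pred (i : ℕ) : ∀ x : S × C N, alive δ (i + 1) x → alive δ i x := by
  induction i with
  | zero => intro x _; trivial
  | succ i ih =>
    intro x h
    rcases hx : st δ x with _ | y
    · exact absurd h (alive_none δ _ hx)
    · rw [alive_succ δ _ hx] at h ⊢
      exact ih y h

theorem alive_le {i j : ℕ} (h : i ≤ j) (x : S × C N) (hj : alive δ j x) : alive δ i x := by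
  induction h with
  | refl => exact hj
  | step _ ih => exact ih (alive_pred δ _ x hj)

theorem alive_runs (i k : ℕ) : ∀ x y : S × C N, Runs δ k x y →
    (alive δ (i + k) x ↔ alive δ i y) := by
  induction k with
  | zero =>
    intro x y h
    have h : x = y := h
    rw [h]; rfl
  | succ k ih =>
    rintro x y ⟨x', hx, h⟩
    rw [← ih x' y h, ← add_assoc]
    exact alive_succ δ _ hx

end alive

theorem one_add_pow (m : ℕ) : ((1 : (ZMod 2)[X]) + X) ^ 2 ^ m = 1 + X ^ 2 ^ m := by
  have := add_pow_char_pow (1 : (ZMod 2)[X]) X (p := 2) (n := m)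
  simpa using this

theorem one_add_sq : (1 : (ZMod 2)[X]) + (1 + X) ^ 2 = X ^ 2 := by
  have h : ((1 : (ZMod 2)[X]) + X) ^ 2 = 1 + X ^ 2 := by
    have := one_add_pow 1
    simpa using this
  rw [h, ← add_assoc, CharTwo.add_self_eq_zero, zero_add]

/-- degree condition -/
def Deg (T : ℕ) (p : (ZMod 2)[X]) : Prop := p = 0 ∨ p.natDegree < T

theorem deg_coeff {T : ℕ} {p : (ZMod 2)[X]} (h : Deg T p) {i : ℕ} (hi : T ≤ i) : p.coeff i = 0 := by
  rcases h with h | h
  · simp [h]
  · exact coeff_eq_zero_of_natDegree_lt (by omega)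

theorem sum_comp' {T : ℕ} {p : (ZMod 2)[X]} (h : Deg T p) (u : (ZMod 2)[X]) :
    ∑ i ∈ Finset.range T, Polynomial.C (p.coeff i) * u ^ i = p.comp u := by
  rcases h with h | h
  · simp [h]
  · rw [comp, eval₂_eq_sum_range' _ h]

theorem deg_comp {T : ℕ} {p : (ZMod 2)[X]} (h : Deg T p) : Deg T (p.comp (1 + X)) := by
  rcases h with h | h
  · left; simp [h]
  · right
    rw [natDegree_comp]
    have : (1 + X : (ZMod 2)[X]).natDegree = 1 := by
      rw [add_comm]; exact natDegree_X_add_C 1
    rw [this]; omega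

theorem deg_comp2 {T : ℕ} {p : (ZMod 2)[X]} (h : Deg T p) : Deg (2 * T) (p.comp (X ^ 2)) := by
  rcases h with h | h
  · left; simp [h]
  · right
    rw [natDegree_comp, natDegree_X_pow]
    omega

theorem wt_comp2 (p : (ZMod 2)[X]) : wt (p.comp (X ^ 2)) = wt p := by
  unfold wt
  rw [← expand_eq_comp_X_pow]
  symm
  apply Finset.card_bij (fun i _ => 2 * i)
  · intro i hi
    rw [mem_support_iff] at hi ⊢
    rw [coeff_expand (by norm_num)]
    simpa using hi
  · intro i _ j _ h
    simpa using h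
  · intro j hj
    rw [mem_support_iff, coeff_expand (by norm_num)] at hj
    split_ifs at hj with h
    · exact ⟨j / 2, by rw [mem_support_iff]; exact hj, Nat.mul_div_cancel' h⟩
    · exact absurd rfl hj

theorem coeff1_comp2 (p : (ZMod 2)[X]) : (p.comp (X ^ 2)).coeff 1 = 0 := by
  rw [← expand_eq_comp_X_pow, coeff_expand (by norm_num)]
  simp

theorem deg_sum (T : ℕ) (a : ℕ → ZMod 2) :
    Deg T (∑ i ∈ Finset.range T, Polynomial.C (a i) * X ^ i) := by
  rcases Nat.eq_zero_or_pos T with rfl | hT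
  · left; simp
  · right
    refine lt_of_le_of_lt (natDegree_sum_le_of_forall_le (n := T - 1) _ _ ?_) (by omega)
    intro i hi
    have := natDegree_C_mul_X_pow_le (a i) i
    have := Finset.mem_range.1 hi
    omega

/-- start of a copying phase -/
noncomputable def OB {N : ℕ} {Q : Type} (q : Q) (T : ℕ) (F : Fin N → (ZMod 2)[X]) : Ct Q × C N :=
  (.B q, (X ^ T, fun r => (F r).comp (1 + X), 0))

section machine

variable {N : ℕ} {Q : Type} [DecidableEq Q] (ins : Q → MI N Q) (last : Q)

theorem divX_one_add {T : ℕ} (hT : 1 ≤ T) : (1 + X ^ T : (ZMod 2)[X]).divX = X ^ (T - 1) := by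
  obtain ⟨T, rfl⟩ : ∃ k, T = k + 1 := ⟨T - 1, by omega⟩
  ext i
  simp [coeff_divX, coeff_one, coeff_X_pow]

theorem divX_pow {T : ℕ} (hT : 1 ≤ T) : (X ^ T : (ZMod 2)[X]).divX = X ^ (T - 1) := by
  obtain ⟨T, rfl⟩ : ∃ k, T = k + 1 := ⟨T - 1, by omega⟩
  ext i
  simp [coeff_divX, coeff_X_pow]

theorem lem1 (q : Q) {T : ℕ} (hT : 1 ≤ T) (D : Fin N → (ZMod 2)[X]) :
    st (dl ins last) (.B q, (1 + X ^ T, 0, D)) = st (dl ins last) (.ac q, (X ^ T, D, 0)) := by
  have h0 : (1 + X ^ T : (ZMod 2)[X]).coeff 0 = 1 := by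
    simp [coeff_X_pow]; omega
  have h1 : (X ^ T : (ZMod 2)[X]).coeff 0 = 0 := by
    simp [coeff_X_pow]; omega
  simp only [st, hd, tl, dl, h0, h1, upd, divX_one_add hT, divX_pow hT]
  simp

theorem lem2 (σ : Ct Q) (hσ : ∀ q, σ ≠ .B q) {T : ℕ} (hT : 1 ≤ T) (D : Fin N → (ZMod 2)[X]) :
    st (dl ins last) (σ, (1 + X ^ T, 0, D)) =
      if elb ins σ = last then none
      else st (dl ins last) (.B (elb ins σ), (X ^ T, D, 0)) := by
  have h0 : (1 + X ^ T : (ZMod 2)[X]).coeff 0 = 1 := by
    simp [coeff_X_pow]; omega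
  have h1 : (X ^ T : (ZMod 2)[X]).coeff 0 = 0 := by
    simp [coeff_X_pow]; omega
  rcases σ with q | q | q
  · exact absurd rfl (hσ q)
  · by_cases h : elb ins (.ac q) = last
    · simp only [st, hd, tl, dl, h0, h, if_true]
      simp
    · simp only [st, hd, tl, dl, h0, h1, h, if_false, upd, divX_one_add hT, divX_pow hT]
      simp
  · by_cases h : elb ins (.dn q) = last
    · simp only [st, hd, tl, dl, h0, h, if_true]
      simp
    · simp only [st, hd, tl, dl, h0, h1, h, if_false, upd, divX_one_add hT, divX_pow hT]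
      simp

theorem dl_zero (σ : Ct Q) (hσ : ∀ q, σ ≠ .B q) (x y : Fin N → ZMod 2) :
    dl ins last σ (0, x, y) = some ((rw1 ins σ x).1, ⟨false, false, (rw1 ins σ x).2⟩) := by
  rcases σ with q | q | q
  · exact absurd rfl (hσ q)
  · simp [dl]
  · simp [dl]

/-- the sequence of states in a searching phase -/
def sq (F : Fin N → (ZMod 2)[X]) (q : Q) : ℕ → Ct Q
  | 0 => .ac q
  | i + 1 => (rw1 ins (sq F q i) (fun r => (F r).coeff i)).1

/-- the sequence of the new columns -/
def fq (F : Fin N → (ZMod 2)[X]) (q : Q) (i : ℕ) : Fin N → ZMod 2 :=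
  (rw1 ins (sq ins F q i) (fun r => (F r).coeff i)).2

theorem round (hP : PHASE) (hS : SWEEP) (q : Q) (m : ℕ) (F : Fin N → (ZMod 2)[X])
    (hF : ∀ r, Deg (2 ^ m) (F r)) :
    ∃ (q' : Q) (F' : Fin N → (ZMod 2)[X]), (∀ r, Deg (2 ^ (m + 1)) (F' r)) ∧
      (q', fun r => wt (F' r)) = mstep ins (q, fun r => wt (F r)) ∧
      ∀ i, alive (dl ins last) (i + 1 + 2 ^ (m + 1) + 2 ^ m) (OB q (2 ^ m) F) ↔
        q' ≠ last ∧ alive (dl ins last) (i + 1) (OB q' (2 ^ (m + 1)) F') := by
  have hm : 1 ≤ 2 ^ m := Nat.one_le_two_pow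
  have hm1 : 2 ≤ 2 ^ (m + 1) := by rw [pow_succ]; omega
  set D : Fin N → (ZMod 2)[X] := fun r => (F r).comp (1 + X) with hD
  set F2 : Fin N → (ZMod 2)[X] := fun r => (F r).comp (X ^ 2) with hF2
  -- copying phase
  have r1 : Runs (dl ins last) (2 ^ m) (OB q (2 ^ m) F) (.B q, (1 + X ^ 2 ^ (m + 1), 0, F2)) := by
    have := hP N (Ct Q) (dl ins last) true (2 ^ m) D (fun _ => .B q)
      (fun i r => (D r).coeff i) (fun r => deg_comp (hF r)) (by
        intro i _ y
        simp [dl])
    have e1 : (((1 : (ZMod 2)[X]) + X) ^ (if true = true then 2 else 1)) ^ 2 ^ m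
        = 1 + X ^ 2 ^ (m + 1) := by
      rw [if_pos rfl, ← pow_mul, ← pow_succ', one_add_pow]
    have e2 : (fun r => ∑ i ∈ Finset.range (2 ^ m), Polynomial.C ((D r).coeff i) *
        (((1 : (ZMod 2)[X]) + X) ^ (if true = true then 2 else 1)) ^ i) = F2 := by
      funext r
      rw [sum_comp' (deg_comp (hF r)), if_pos rfl]
      show ((F r).comp (1 + X)).comp ((1 + X) ^ 2) = (F r).comp (X ^ 2)
      rw [comp_assoc]
      congr 1
      rw [add_comp, one_comp, X_comp, one_add_sq]
    rw [e1, e2] at this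
    exact this
  -- searching phase
  set σ := sq ins F2 q with hσ
  set f := fq ins F2 q with hf
  have hF2d : ∀ r, Deg (2 ^ (m + 1)) (F2 r) := by
    intro r
    rw [pow_succ']
    exact deg_comp2 (hF r)
  obtain ⟨hB, hE⟩ := hS N Q ins q (2 ^ (m + 1)) F2 σ f hm1 hF2d
    (fun r => coeff1_comp2 (F r)) rfl (fun i _ => rfl)
  set F' : Fin N → (ZMod 2)[X] := fun r => ∑ i ∈ Finset.range (2 ^ (m + 1)),
    Polynomial.C (f i r) * X ^ i with hF'
  have r2 : Runs (dl ins last) (2 ^ (m + 1)) (.ac q, (X ^ 2 ^ (m + 1), F2, 0))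
      (σ (2 ^ (m + 1)), (1 + X ^ 2 ^ (m + 1), 0, fun r => (F' r).comp (1 + X))) := by
    have := hP N (Ct Q) (dl ins last) false (2 ^ (m + 1)) F2 σ f hF2d (by
        intro i hi y
        rw [dl_zero ins last (σ i) (hB i hi.le)]
        rfl)
    have e1 : (((1 : (ZMod 2)[X]) + X) ^ (if false = true then 2 else 1)) ^ 2 ^ (m + 1)
        = 1 + X ^ 2 ^ (m + 1) := by
      rw [if_neg (by simp), pow_one, one_add_pow]
    have e2 : (fun r => ∑ i ∈ Finset.range (2 ^ (m + 1)), Polynomial.C (f i r) *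
        (((1 : (ZMod 2)[X]) + X) ^ (if false = true then 2 else 1)) ^ i) =
        fun r => (F' r).comp (1 + X) := by
      funext r
      rw [if_neg (by simp), pow_one, hF']
      simp only [Polynomial.sum_comp, mul_comp, C_comp, X_pow_comp]
    rw [e1, e2] at this
    exact this
  refine ⟨elb ins (σ (2 ^ (m + 1))), F', fun r => deg_sum _ _, ?_, ?_⟩
  · rw [hE]
    congr 2
    funext r
    exact wt_comp2 (F r)
  · intro i
    rw [alive_runs _ _ _ _ _ r1]
    have h1 : i + 1 + 2 ^ (m + 1) = (i + 2 ^ (m + 1)) + 1 := by omega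
    rw [h1, alive_congr _ (lem1 ins last q (by omega) F2), ← h1, alive_runs _ _ _ _ _ r2]
    have h2 := lem2 ins last (σ (2 ^ (m + 1))) (hB _ le_rfl) (T := 2 ^ (m + 1)) (by omega)
      (fun r => (F' r).comp (1 + X))
    by_cases hl : elb ins (σ (2 ^ (m + 1))) = last
    · rw [if_pos hl] at h2
      constructor
      · intro h
        exact absurd h (alive_none _ _ h2)
      · rintro ⟨h, _⟩
        exact absurd hl h
    · rw [if_neg hl] at h2
      rw [alive_congr _ h2]
      constructor
      · intro h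
        exact ⟨hl, h⟩
      · rintro ⟨_, h⟩
        exact h

theorem alive_one (q : Q) (m : ℕ) (F : Fin N → (ZMod 2)[X]) :
    alive (dl ins last) 1 (OB q (2 ^ m) F) := by
  have h1 : (X ^ 2 ^ m : (ZMod 2)[X]).coeff 0 = 0 := by
    have : 1 ≤ 2 ^ m := Nat.one_le_two_pow
    simp [coeff_X_pow]; omega
  simp only [alive, st, OB, hd, dl, h1]
  simp

theorem alive_of (hP : PHASE) (hS : SWEEP) (i : ℕ) :
    ∀ (q : Q) (m : ℕ) (F : Fin N → (ZMod 2)[X]), (∀ r, Deg (2 ^ m) (F r)) →
      (∀ j, ((mstep ins)^[j + 1] (q, fun r => wt (F r))).1 ≠ last) →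
      alive (dl ins last) (i + 1) (OB q (2 ^ m) F) := by
  induction i with
  | zero => intro q m F _ _; exact alive_one ins last q m F
  | succ i ih =>
    intro q m F hF hj
    obtain ⟨q', F', hF', hq, h⟩ := round ins last hP hS q m F hF
    have hm : 1 ≤ 2 ^ m := Nat.one_le_two_pow
    refine alive_le _ (j := i + 1 + 2 ^ (m + 1) + 2 ^ m) (by omega) _ ?_
    rw [h i]
    refine ⟨?_, ih q' (m + 1) F' hF' ?_⟩
    · have := hj 0
      rw [Function.iterate_one, ← hq] at this
      exact this
    · intro j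
      rw [hq, ← Function.iterate_succ_apply]
      exact hj (j + 1)

theorem of_alive (hP : PHASE) (hS : SWEEP) (j : ℕ) :
    ∀ (q : Q) (m : ℕ) (F : Fin N → (ZMod 2)[X]), (∀ r, Deg (2 ^ m) (F r)) →
      (∀ i, alive (dl ins last) i (OB q (2 ^ m) F)) →
      ((mstep ins)^[j + 1] (q, fun r => wt (F r))).1 ≠ last := by
  induction j with
  | zero =>
    intro q m F hF hA
    obtain ⟨q', F', hF', hq, h⟩ := round ins last hP hS q m F hF
    rw [Function.iterate_one, ← hq]
    exact ((h 0).1 (hA _)).1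
  | succ j ih =>
    intro q m F hF hA
    obtain ⟨q', F', hF', hq, h⟩ := round ins last hP hS q m F hF
    rw [Function.iterate_succ_apply, ← hq]
    refine ih q' (m + 1) F' hF' ?_
    intro i
    exact alive_le _ (Nat.le_succ i) _ ((h i).1 (hA _)).2

end machine

theorem wt_init (n : ℕ) : wt (∑ i ∈ Finset.range n, (X : (ZMod 2)[X]) ^ i) = n := by
  unfold wt
  have : (∑ i ∈ Finset.range n, (X : (ZMod 2)[X]) ^ i).support = Finset.range n := by
    ext k
    rw [mem_support_iff, finset_sum_coeff]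
    simp only [coeff_X_pow, Finset.sum_ite_eq, Finset.mem_range]
    by_cases h : k < n <;> simp [h]
  rw [this, Finset.card_range]

theorem deg_init (n : ℕ) : Deg (2 ^ n) (∑ i ∈ Finset.range n, (X : (ZMod 2)[X]) ^ i) := by
  have h := deg_sum n (fun _ => 1)
  simp only [map_one, one_mul] at h
  rcases h with h | h
  · exact Or.inl h
  · exact Or.inr (h.trans n.lt_two_pow_self)

theorem main : PHASE → SWEEP → PCM := by
  intro hP hS N Q _ ins start last r r0 n hlast
  set F : Fin N → (ZMod 2)[X] := Pi.single r0 (∑ i ∈ Finset.range n, (X : (ZMod 2)[X]) ^ i)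
    with hF
  have hFd : ∀ s, Deg (2 ^ n) (F s) := by
    intro s
    by_cases hs : s = r0
    · subst hs
      rw [hF, Pi.single_eq_same]
      exact deg_init n
    · left
      rw [hF, Pi.single_eq_of_ne hs]
  have hw : (fun s => wt (F s)) = st0 r0 n := by
    funext s
    by_cases hs : s = r0
    · subst hs
      rw [hF, st0, Pi.single_eq_same, Pi.single_eq_same, wt_init]
    · rw [hF, st0, Pi.single_eq_of_ne hs, Pi.single_eq_of_ne hs]
      simp [wt]
  have hi : ((Ct.B start, ic r0 n) : Ct Q × C N) = OB start (2 ^ n) F := by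
    have : (Pi.single r0 (∑ i ∈ Finset.range n, (1 + X) ^ i) : Fin N → (ZMod 2)[X])
        = fun s => (F s).comp (1 + X) := by
      funext s
      by_cases hs : s = r0
      · subst hs
        rw [hF, Pi.single_eq_same, Pi.single_eq_same]
        simp only [Polynomial.sum_comp, X_pow_comp]
      · rw [hF, Pi.single_eq_of_ne hs, Pi.single_eq_of_ne hs, zero_comp]
    rw [ic, OB, this]
  rw [hi, ← hw]
  constructor
  · intro hA j
    rcases j with _ | j
    · intro h
      have h1 := of_alive ins last hP hS 0 start n F hFd hA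
      apply h1
      have h : start = last := h
      rw [Function.iterate_one, h, mstep]
      simp only [hlast]
      split_ifs <;> rfl
    · exact of_alive ins last hP hS j start n F hFd hA
  · intro hj i
    exact alive_le _ (Nat.le_succ i) _
      (alive_of ins last hP hS i start n F hFd (fun j => hj (j + 1)))

end Pool.Agent.W628.LT
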